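import Pool.Agent.H96.AKS.Defs
import Pool.Agent.H76.HR.Union

/-!
From the theories of `Defs` to those of `H9/AK`.
-/

noncomputable section

open CategoryTheory CategoryTheory.Limits AlgebraicGeometry

namespace Pool.AKS

variable {Ω : Type} [Field Ω] [CharZero Ω]

/-! ### Operators -/

/-- The old form. -/
def FN.old {q q' : ℕ} (hq : q = q') (M : FN q Ω) (h : M.Good) : Pool.H9.WMC.FN q' Ω where
  V := M.V
  fin := h.1
  F := M.F
  N := M.N
  F_inj := h.2.1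
  N_nilp := h.2.2.1
  NF := by subst hq; exact h.2.2.2.1
  mixed := by subst hq; exact h.2.2.2.2

theorem FN.wm_old {q q' : ℕ} (hq : q = q') (M : FN q Ω) (h : M.Good) (w : ℤ) :
    (M.old hq h).WM w ↔ M.WM w := by
  subst hq
  constructor
  · rintro ⟨L, h1, h2, h3⟩
    exact ⟨L, ⟨h1.1, h1.2, h1.3, h1.4, h1.5, h1.6⟩, h2, h3⟩
  · rintro ⟨L, ⟨a1, a2, a3, a4, a5, a6⟩, h2, h3⟩
    exact ⟨L, ⟨a1, a2, a3, a4, a5, a6⟩, h2, h3⟩

theorem FN.sim_old {q q' r r' : ℕ} (hq : q = q') (hr : r = r') (M : FN q Ω) (h : M.Good)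
    (M' : FN r Ω) (h' : M'.Good) :
    Pool.H9.AK.FN.Sim (M.old hq h) (M'.old hr h') ↔ M.Sim M' := by
  subst hq hr
  constructor
  · rintro ⟨m, n, c, e, h1, h2, h3, h4, h5, h6⟩
    exact ⟨m, n, c, e.toLinearMap, e.bijective, h1, h2, h3, h4, h5, h6⟩
  · rintro ⟨m, n, c, e, h0, h1, h2, h3, h4, h5, h6⟩
    exact ⟨m, n, c, LinearEquiv.ofBijective e h0, h1, h2, h3, h4, h5, h6⟩

/-! ### Local fields -/

theorem mx_eq (O : CommRingCat.{0}) [IsLocalRing O] : mx O = IsLocalRing.maximalIdeal O := by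
  refine le_antisymm (Ideal.span_le.2 fun x hx => (IsLocalRing.mem_maximalIdeal x).2 hx)
    fun x hx => Ideal.subset_span ((IsLocalRing.mem_maximalIdeal x).1 hx)

theorem lf_of (L : Pool.H9.AK.LF) : LF (CommRingCat.of L.O) := by
  have e : mx (CommRingCat.of L.O) = IsLocalRing.maximalIdeal L.O := mx_eq (CommRingCat.of L.O)
  refine ⟨L.dom, inferInstanceAs (IsPrincipalIdealRing L.O), inferInstanceAs (IsLocalRing L.O),
    IsDiscreteValuationRing.not_isField L.O, ?_, ?_⟩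
  · rw [e]
    exact L.cpl
  · rw [e]
    exact L.fin

theorem card_of (L : Pool.H9.AK.LF) : card (CommRingCat.of L.O) = L.q := by
  unfold card
  rw [mx_eq (CommRingCat.of L.O)]
  rfl

/-- The local field given by `O`. -/
def toLF {O : CommRingCat.{0}} (h : LF O) : Pool.H9.AK.LF :=
  letI := h.1
  letI := h.2.1
  letI := h.2.2.1
  letI : IsDiscreteValuationRing O :=
    { not_a_field' := fun hb => h.2.2.2.1 (IsLocalRing.isField_iff_maximalIdeal_eq.2 hb) }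
  { O := O
    dom := h.1
    dvr := inferInstance
    cpl := by rw [← mx_eq O]; exact h.2.2.2.2.1
    fin := by
      have := h.2.2.2.2.2
      rw [mx_eq O] at this
      exact this }

theorem toLF_O {O : CommRingCat.{0}} (h : LF O) : CommRingCat.of (toLF h).O = O := rfl

theorem card_toLF {O : CommRingCat.{0}} (h : LF O) : card O = (toLF h).q := card_of (toLF h)

/-- Extensions, old form. -/
def extOld {O O' : CommRingCat.{0}} (h : LF O) (h' : LF O') {φ : O ⟶ O'} {κ : Fr O ⟶ Fr O'}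
    (e : Ext φ κ) : (toLF h).Ext (toLF h') where
  φ := φ.hom
  κ := κ.hom
  fin := e.1
  comm := congrArg CommRingCat.Hom.hom e.2

theorem ext_of {L L' : Pool.H9.AK.LF} (e : L.Ext L') :
    Ext (O := CommRingCat.of L.O) (O' := CommRingCat.of L'.O) (CommRingCat.ofHom e.φ)
      (CommRingCat.ofHom e.κ) :=
  ⟨e.fin, CommRingCat.hom_ext e.comm⟩

/-! ### Charts -/

theorem chart {A : Type} [CommRing A] {M : ℕ} (c : Chart (CommRingCat.of A) M) :
    ∃ c' : Pool.H9.AK.Chart A M,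
      (∀ (L : Pool.H9.AK.LF) (s : A →+* L.K),
        FromArc (O := CommRingCat.of L.O) c (CommRingCat.ofHom s) → ∃ a' : c'.Arc L, a'.pt = s) ∧
      ∀ (L L' : Pool.H9.AK.LF) (a : c'.Arc L) (a' : c'.Arc L'), a.Twin a' →
        FromTwins (O := CommRingCat.of L.O) (O' := CommRingCat.of L'.O) c (CommRingCat.ofHom a.pt)
          (CommRingCat.ofHom a'.pt) := by
  obtain ⟨n, R, t, ⟨al, et, ht⟩, D, ψ⟩ := c
  obtain rfl : t = fun i => al.algebraMap (MvPolynomial.X i) := funext fun i => (ht i).symm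
  refine ⟨{ n := n, R := R, alg := al, etale := et, D := D, ψ := ψ.hom }, ?_, ?_⟩
  · rintro L s ⟨a, ha⟩
    exact ⟨⟨a.α.hom, a.σ.hom, congrArg CommRingCat.Hom.hom a.comm⟩,
      congrArg CommRingCat.Hom.hom ha⟩
  · rintro L L' a a' ⟨k, _, ρ, ρ', ϖ, ϖ', h1, h2, h3, h4, h5, h6⟩
    refine ⟨⟨CommRingCat.ofHom a.α, CommRingCat.ofHom a.σ,
      CommRingCat.hom_ext a.comm⟩, ⟨CommRingCat.ofHom a'.α, CommRingCat.ofHom a'.σ,
      CommRingCat.hom_ext a'.comm⟩, CommRingCat.of k, CommRingCat.ofHom ρ, CommRingCat.ofHom ρ',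
      rfl, rfl, ?_⟩
    exact ⟨Field.toIsField k, h1, h2, h5, ϖ, ϖ', h3, h4, h6⟩

/-! ### Theories -/

/-- The cohomology, old form. -/
def Theory.oldH (T : Theory Ω) (L : Pool.H9.AK.LF) (Y : Pool.H9.AK.Fam L.K) (i : ℕ) :
    Pool.H9.WMC.FN L.q Ω :=
  (T.H (CommRingCat.of L.O) (Over.mk Y.f) i).old (card_of L)
    (T.good _ (lf_of L) (Over.mk Y.f) ⟨Y.smooth, Y.proper⟩ i)

theorem Theory.simH (T : Theory Ω) (L L' : Pool.H9.AK.LF) (Y : Pool.H9.AK.Fam L.K)
    (Y' : Pool.H9.AK.Fam L'.K) (i : ℕ) :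
    Pool.H9.AK.FN.Sim (T.oldH L Y i) (T.oldH L' Y' i) ↔
      (T.H (CommRingCat.of L.O) (Over.mk Y.f) i).Sim (T.H (CommRingCat.of L'.O) (Over.mk Y'.f) i) :=
  FN.sim_old _ _ _ _ _ _

/-- The old form. -/
def Theory.old (T : Theory Ω) : Pool.H9.AK.Theory Ω where
  H := T.oldH
  iso := by
    rintro L Y Y' ⟨e, he⟩ i
    exact (T.simH L L Y Y' i).2 (T.iso _ (lf_of L) _ _ ⟨Y.smooth, Y.proper⟩ ⟨Y'.smooth, Y'.proper⟩
      ⟨Over.isoMk e he⟩ i)
  ext := by
    intro L L' e Y i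
    exact (T.simH L L' Y (Y.map e.κ) i).2 (T.ext _ _ (lf_of L) (lf_of L') _ _ (ext_of e) (Over.mk Y.f)
      ⟨Y.smooth, Y.proper⟩ i)
  equal := by
    intro L p hp h0 Y i
    have : CharP L.O p := by
      obtain ⟨q, hq⟩ := CharP.exists L.O
      have hd : q ∣ p := (CharP.cast_eq_zero_iff L.O q p).1 h0
      rcases (Nat.dvd_prime hp).1 hd with rfl | rfl
      · exact absurd rfl (CharP.char_ne_one L.O 1)
      · exact hq
    exact (FN.wm_old (card_of L) _ _ i).2 (T.equal _ (lf_of L) p hp this (Over.mk Y.f)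
      ⟨Y.smooth, Y.proper⟩ i)
  model := by
    intro A _ _ _ _ X
    obtain ⟨g, M, J, c, hg, hM, h1, h2⟩ := T.model (CommRingCat.of A) (inferInstanceAs (IsDomain A))
      (inferInstanceAs (CharZero A)) (inferInstanceAs (Algebra.FiniteType ℤ A)) (Over.mk X.f)
      ⟨X.smooth, X.proper⟩
    choose c' hc1 hc2 using fun j => chart (c j)
    refine ⟨g, M, Fin J, inferInstance, c', hg, hM, ?_, ?_⟩
    · intro L s h0 hu hs
      obtain ⟨j, O', φ, κ, hO', he, ha⟩ := h1 (CommRingCat.of L.O) (lf_of L) h0 hu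
        (CommRingCat.ofHom s) hs
      obtain ⟨a', ha'⟩ := hc1 j (toLF hO') (κ.hom.comp s) ha
      exact ⟨toLF hO', extOld (lf_of L) hO' he, j, a', ha'⟩
    · intro j L L' a a' ht i
      exact (T.simH L L' _ _ i).2 (h2 j _ _ (lf_of L) (lf_of L') _ _ (hc2 j L L' a a' ht) i)

/-! ### Semistable models -/

theorem semistable_of {L : Pool.H9.AK.LF} (Y : Pool.HR.Mod L) (h : Y.Semistable) :
    Semistable (O := CommRingCat.of L.O) (Over.mk Y.f) := by
  obtain ⟨ϖ, hϖ, h⟩ := h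
  refine ⟨ϖ, hϖ, fun x => ?_⟩
  obtain ⟨n, I, U, j, u, hj, hx, hu, hc⟩ := h x
  refine ⟨j.opensRange, hx, n, I, j.isoOpensRange.inv ≫ u, ?_, ?_⟩
  · have : Etale u := hu
    exact inferInstanceAs (Etale (j.isoOpensRange.inv ≫ u))
  · have h1 : j.opensRange.ι = j.isoOpensRange.inv ≫ j := (j.isoOpensRange_inv_comp).symm
    change j.opensRange.ι ≫ Y.f = (j.isoOpensRange.inv ≫ u) ≫ _
    rw [h1, Category.assoc, hc]
    exact (Category.assoc _ _ _).symm

theorem semistable_old {L : Pool.H9.AK.LF} (Y : Pool.HR.Mod L)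
    (h : Semistable (O := CommRingCat.of L.O) (Over.mk Y.f)) : Y.Semistable := by
  obtain ⟨ϖ, hϖ, h⟩ := h
  refine ⟨ϖ, hϖ, fun x => ?_⟩
  obtain ⟨U, hx, n, I, u, hu, hc⟩ := h x
  refine ⟨n, I, U, U.ι, u, inferInstance, ?_, hu, hc⟩
  rw [Scheme.Opens.range_ι]
  exact hx

theorem hyodoKato_old (T : Theory Ω) (hT : HyodoKato T) : Pool.HR.HyodoKato T.old := by
  intro L L' Y Y' hY hc
  obtain ⟨Q, _, ρ, ρ', h1, h2, ⟨e⟩⟩ := hc
  have m : ∀ L : Pool.H9.AK.LF, mx (CommRingCat.of L.O) = IsLocalRing.maximalIdeal L.O :=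
    fun L => mx_eq (CommRingCat.of L.O)
  have h := hT (CommRingCat.of L.O) (CommRingCat.of L'.O) (lf_of L) (lf_of L') (Over.mk Y.f)
    (Over.mk Y'.f) ⟨Y.flat, Y.proper⟩ ⟨Y'.flat, Y'.proper⟩ (semistable_of Y hY)
    ⟨CommRingCat.of Q, CommRingCat.ofHom ρ, CommRingCat.ofHom ρ', ⟨h1.1, by rw [m]; exact h1.2⟩,
      ⟨h2.1, by rw [m]; exact h2.2⟩, ⟨e⟩⟩
  exact ⟨h.1, h.2.1, fun i => (T.simH L L' (Y.gen h.1) (Y'.gen h.2.1) i).2 (h.2.2 i)⟩

/-- The theorem. -/
theorem main [IsAlgClosed Ω] (T : Theory Ω) (hT : HyodoKato T)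
    {X S : Scheme.{0}} (f : X ⟶ S) [Flat f] [IsProper f] (g : S ⟶ Spec (CommRingCat.of ℤ))
    [CompactSpace S] [LocallyOfFiniteType g] :
    ∃ B e : ℕ, 0 < B ∧ ∀ O, LF O → CharZero O → ∀ p : ℕ, p.Prime → (p : O) ∈ mx O →
      ∀ s : Spec (Fr O) ⟶ S, Sm (fib f s) →
        (¬ p ∣ B ∨ (p : O) ∈ mx O ^ e ∧ SemistableAt f s) →
        (∀ i : ℕ, (T.H O (fib f s) i).WM i) ∧ Twinned T f p s := by
  obtain ⟨B, e, hB, h⟩ := Pool.HR.union T.old (hyodoKato_old T hT) f g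
  refine ⟨B, e, hB, fun O hO h0 p hp hpO s hs hor => ?_⟩
  have h00 : CharZero (toLF hO).O := h0
  have hm : mx (CommRingCat.of (toLF hO).O) = IsLocalRing.maximalIdeal (toLF hO).O :=
    mx_eq (CommRingCat.of (toLF hO).O)
  have hp1 : (p : (toLF hO).O) ∈ IsLocalRing.maximalIdeal (toLF hO).O := hm ▸ hpO
  have hLp : (toLF hO).p = p := by
    have h1 : ((p : ℕ) : (toLF hO).k) = 0 := by
      have := (IsLocalRing.residue_eq_zero_iff _).2 hp1
      rwa [map_natCast] at this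
    have h2 : ringChar (toLF hO).k ∣ p := (ringChar.spec _ p).1 h1
    rcases (Nat.dvd_prime hp).1 h2 with h3 | h3
    · exact absurd h3 (CharP.ringChar_ne_one)
    · exact h3
  have hs' : Smooth (pullback.snd f s) := hs
  have h0' : CharZero (toLF hO).K :=
    charZero_of_injective_algebraMap (IsFractionRing.injective (toLF hO).O (toLF hO).K)
  have key := h (toLF hO) h0' s hs' ?_
  · refine ⟨fun i => (FN.wm_old (card_of (toLF hO)) (T.H O (fib f s) i)
      (T.good O hO (fib f s) ⟨hs, inferInstanceAs (IsProper (pullback.snd f s))⟩ i) i).1 (key.1 i), ?_⟩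
    obtain ⟨k, _, _, s', h', hk, hi⟩ := key.2
    refine ⟨CommRingCat.of k, s', Field.toIsField k, ‹_›, ?_, h', fun i => ?_⟩
    · rw [← hLp, ← hk]
      exact ringChar.charP k
    · exact (T.simH _ _ _ _ i).1 (hi i)
  · rcases hor with h1 | ⟨h1, r, hr, hss⟩
    · left
      rw [hLp]
      exact h1
    · right
      refine ⟨?_, r, hr, semistable_old (L := toLF hO) (Pool.HR.Mod.of f r) hss⟩
      change (((toLF hO).p : ℕ) : (toLF hO).O) ∈ IsLocalRing.maximalIdeal (toLF hO).O ^ e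
      rw [hLp, ← hm]
      exact h1

end Pool.AKS

end
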