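import Mathlib

/-!
# Weight-monodromy in families: the definitions

Rings are objects of `CommRingCat`, schemes over a base `T` are objects of `Over T`.
-/

noncomputable section

open CategoryTheory CategoryTheory.Limits AlgebraicGeometry

namespace Pool.AKS

/-! ### Frobenius and monodromy -/

section
variable {Ω : Type} [Field Ω] {V V' : Type} [AddCommGroup V] [Module Ω V] [AddCommGroup V']
  [Module Ω V']

/-- `α` is a Weil number of weight `w`: it is algebraic over `ℚ` and all its complex conjugates have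
absolute value `q ^ (w / 2)`. -/
def IsWeil [CharZero Ω] (q : ℕ) (α : Ω) (w : ℤ) : Prop :=
  IsAlgebraic ℚ α ∧
    ∀ z : ℂ, Polynomial.aeval z (minpoly ℚ α) = 0 → ‖z‖ = (q : ℝ) ^ ((w : ℝ) / 2)

/-- The operators `F` (Frobenius) and `N` (monodromy) on the finite-dimensional space `V`, for a
residue field with `q` elements: `F` is injective, `N` is nilpotent, `N F = q F N`, and the
eigenvalues of `F` are Weil numbers. -/
def Operators [CharZero Ω] (q : ℕ) (F N : V →ₗ[Ω] V) : Prop :=
  FiniteDimensional Ω V ∧ (∀ x, F x = 0 → x = 0) ∧ IsNilpotent N ∧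
    (∀ x, N (F x) = (q : Ω) • F (N x)) ∧
    ∀ (α : Ω) (x : V), x ≠ 0 → F x = α • x → ∃ w : ℤ, IsWeil q α w

/-- `L` is the monodromy filtration of `N`: an increasing filtration with `N L_j ⊆ L_(j-2)` such that
`N ^ k` is an isomorphism of `L_k / L_(k-1)` with `L_(-k) / L_(-k-1)`. -/
def IsMonodromyFiltration (N : V →ₗ[Ω] V) (L : ℤ → Submodule Ω V) : Prop :=
  Monotone L ∧ (∃ j, L j = ⊥) ∧ (∃ j, L j = ⊤) ∧ (∀ j, ∀ x ∈ L j, N x ∈ L (j - 2)) ∧
    (∀ k : ℕ, ∀ x ∈ L k, (N ^ k) x ∈ L (-k - 1) → x ∈ L (k - 1)) ∧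
    ∀ k : ℕ, ∀ y ∈ L (-k), ∃ x ∈ L k, y - (N ^ k) x ∈ L (-k - 1)

/-- Weight-monodromy of weight `w`: the eigenvalues of `F` on the `j`-th graded piece of the monodromy
filtration of `N` are Weil numbers of weight `w + j`. -/
def WeightMonodromy [CharZero Ω] (q : ℕ) (F N : V →ₗ[Ω] V) (w : ℤ) : Prop :=
  ∃ L : ℤ → Submodule Ω V, IsMonodromyFiltration N L ∧ (∀ j, ∀ x ∈ L j, F x ∈ L j) ∧
    ∀ j, ∀ x ∈ L j, x ∉ L (j - 1) → ∀ α : Ω, F x - α • x ∈ L (j - 1) → IsWeil q α (w + j)

/-- `(F, N)` and `(F', N')` are isomorphic after replacing `F`, `F'` by positive powers and `N` by a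
nonzero multiple. -/
def Similar (q q' : ℕ) (F N : V →ₗ[Ω] V) (F' N' : V' →ₗ[Ω] V') : Prop :=
  ∃ (a b : ℕ) (c : Ω) (e : V →ₗ[Ω] V'), Function.Bijective e ∧ 0 < a ∧ 0 < b ∧ q ^ a = q' ^ b ∧
    c ≠ 0 ∧ (∀ x, e ((F ^ a) x) = (F' ^ b) (e x)) ∧ ∀ x, e (N x) = c • N' (e x)

end

/-- A space with two operators `F` and `N`, for a residue field with `q` elements. -/
structure FN (q : ℕ) (Ω : Type) [Field Ω] where
  V : ModuleCat.{0} Ω
  F : V →ₗ[Ω] V
  N : V →ₗ[Ω] V

section
variable {q q' : ℕ} {Ω : Type} [Field Ω]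

def FN.Good [CharZero Ω] (M : FN q Ω) : Prop := Operators q M.F M.N

def FN.WM [CharZero Ω] (M : FN q Ω) (w : ℤ) : Prop := WeightMonodromy q M.F M.N w

def FN.Sim (M : FN q Ω) (M' : FN q' Ω) : Prop := Similar q q' M.F M.N M'.F M'.N

end

/-! ### Local fields -/

/-- The ideal generated by the elements which are not units; the maximal ideal, if `O` is local. -/
def mx (O : CommRingCat.{0}) : Ideal O := Ideal.span (nonunits O)

/-- `O` is a complete discrete valuation ring with finite residue field, that is, the ring of integers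
of a nonarchimedean local field. -/
def LF (O : CommRingCat.{0}) : Prop :=
  IsDomain O ∧ IsPrincipalIdealRing O ∧ IsLocalRing O ∧ ¬ IsField O ∧ IsAdicComplete (mx O) O ∧
    Finite (O ⧸ mx O)

/-- The number of elements of the residue field. -/
def card (O : CommRingCat.{0}) : ℕ := Nat.card (O ⧸ mx O)

/-- The field of fractions. -/
def Fr (O : CommRingCat.{0}) : CommRingCat.{0} := CommRingCat.of (FractionRing O)

/-- The inclusion of `O` in its field of fractions. -/
def inc (O : CommRingCat.{0}) : O ⟶ Fr O := CommRingCat.ofHom (algebraMap O (FractionRing O))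

/-- `φ`, `κ` is a finite extension of rings of integers, with the map of the fields of fractions. -/
def Ext {O O' : CommRingCat.{0}} (φ : O ⟶ O') (κ : Fr O ⟶ Fr O') : Prop :=
  φ.hom.Finite ∧ inc O ≫ κ = φ ≫ inc O'

/-! ### Schemes -/

/-- The fibre of `f` over `s`, that is, the base change of `f` by `s`. -/
def fib {X S T : Scheme.{0}} (f : X ⟶ S) (s : T ⟶ S) : Over T := Over.mk (pullback.snd f s)

/-- The base change of `Y` along `φ`. -/
def bc {R R' : CommRingCat.{0}} (Y : Over (Spec R)) (φ : R ⟶ R') : Over (Spec R') :=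
  fib Y.hom (Spec.map φ)

/-- Smooth. -/
def Sm {T : Scheme.{0}} (Y : Over T) : Prop := Smooth Y.hom

/-- Smooth and proper. -/
def SP {T : Scheme.{0}} (Y : Over T) : Prop := Smooth Y.hom ∧ IsProper Y.hom

/-- Flat and proper. -/
def FP {T : Scheme.{0}} (Y : Over T) : Prop := Flat Y.hom ∧ IsProper Y.hom

/-! ### Charts and arcs -/

section
variable {n : ℕ} {R O O' k : Type} [CommRing R] [CommRing O] [CommRing O'] [CommRing k]
  (t : Fin n → R) (D : Finset (Fin n))

/-- `R` is étale over `ℤ[1/M][t_1, ..., t_n]`. -/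
def IsEtale (M : ℕ) : Prop :=
  ∃ a : Algebra (MvPolynomial (Fin n) (Localization.Away (M : ℤ))) R,
    Algebra.Etale (MvPolynomial (Fin n) (Localization.Away (M : ℤ))) R ∧
      ∀ i, a.algebraMap (MvPolynomial.X i) = t i

/-- The complement of the boundary `∏ i ∈ D, t_i = 0`. -/
def Compl : CommRingCat.{0} := CommRingCat.of (Localization.Away (∏ i ∈ D, t i))

/-- The inclusion of the complement of the boundary. -/
def toCompl : CommRingCat.of R ⟶ Compl t D :=
  CommRingCat.ofHom (algebraMap R (Localization.Away (∏ i ∈ D, t i)))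

/-- The morphisms `α`, `α'` from the spectra of two discrete valuation rings `O`, `O'` with the same
residue field `k` to `Spec R` have the same closed point, and meet the components of the boundary with
the same multiplicities and the same leading coefficients. -/
def Twins (α : R →+* O) (α' : R →+* O') (ρ : O →+* k) (ρ' : O' →+* k) : Prop :=
  IsField k ∧ Function.Surjective ρ ∧ Function.Surjective ρ' ∧ (∀ x, ρ (α x) = ρ' (α' x)) ∧
    ∃ (ϖ : O) (ϖ' : O'), Irreducible ϖ ∧ Irreducible ϖ' ∧
      ∀ i ∈ D, ∃ (v : ℕ) (u : O) (u' : O'), IsUnit u ∧ α (t i) = u * ϖ ^ v ∧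
        α' (t i) = u' * ϖ' ^ v ∧ ρ u = ρ' u'

/-- `ρ` is surjective with kernel `I`. -/
def IsQuo (ρ : O →+* k) (I : Ideal O) : Prop := Function.Surjective ρ ∧ RingHom.ker ρ = I

/-- The spectrum of `O[t_1, ..., t_n] / (∏ i ∈ I, t_i - ϖ)`, over the spectrum of `O`. -/
def stdSch (ϖ : O) (n : ℕ) (I : Finset (Fin n)) : Over (Spec (CommRingCat.of O)) :=
  Over.mk (Spec.map (CommRingCat.ofHom (algebraMap O (MvPolynomial (Fin n) O ⧸
    Ideal.span {∏ i ∈ I, MvPolynomial.X i - MvPolynomial.C ϖ}))))

end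

/-- A chart over `ℤ[1/M]` of a compactification of a scheme over `Spec A`: a ring `R`, étale over
`ℤ[1/M][t_1, ..., t_n]`, the boundary `∏ i ∈ D, t_i = 0`, and a morphism from the complement of the
boundary to `Spec A`. -/
structure Chart (A : CommRingCat.{0}) (M : ℕ) where
  n : ℕ
  R : CommRingCat.{0}
  t : Fin n → R
  etale : IsEtale t M
  D : Finset (Fin n)
  ψ : A ⟶ Compl t D

/-- An arc: a morphism from the spectrum of `O` to `Spec R`, which maps the generic point to the
complement of the boundary. -/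
structure Arc {n : ℕ} {R : CommRingCat.{0}} (t : Fin n → R) (D : Finset (Fin n))
    (O : CommRingCat.{0}) where
  α : R ⟶ O
  σ : Compl t D ⟶ Fr O
  comm : toCompl t D ≫ σ = α ≫ inc O

/-- The point `s` of `Spec A` with values in the field of fractions of `O` comes from an arc in the
chart. -/
def FromArc {A : CommRingCat.{0}} {M : ℕ} (c : Chart A M) {O : CommRingCat.{0}} (s : A ⟶ Fr O) :
    Prop :=
  ∃ a : Arc c.t c.D O, c.ψ ≫ a.σ = s

/-- The points `s` and `s'` come from twin arcs in the chart. -/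
def FromTwins {A : CommRingCat.{0}} {M : ℕ} (c : Chart A M) {O O' : CommRingCat.{0}} (s : A ⟶ Fr O)
    (s' : A ⟶ Fr O') : Prop :=
  ∃ (a : Arc c.t c.D O) (a' : Arc c.t c.D O') (k : CommRingCat.{0}) (ρ : O ⟶ k) (ρ' : O' ⟶ k),
    c.ψ ≫ a.σ = s ∧ c.ψ ≫ a'.σ = s' ∧ Twins c.t c.D a.α.hom a'.α.hom ρ.hom ρ'.hom

/-- The image of `g` is not zero. -/
def NonVan {R R' : CommRingCat.{0}} (s : R ⟶ R') (g : R) : Prop := s.hom g ≠ 0

/-! ### Theories -/

/-- A cohomology theory for smooth proper schemes `Y` over local fields (for other `O`, `Y` the values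
of `H` do not matter).

* `good`: the operators;
* `iso`, `ext`: invariance under isomorphisms and finite extensions of the local field;
* `equal`: weight-monodromy in equal characteristic;
* `model`: good compactifications.  For a smooth proper scheme over a finitely generated domain `A`
  of characteristic `0` there are `g ≠ 0` in `A`, an integer `M > 0` and finitely many charts over
  `ℤ[1/M]` such that every point of `Spec A` with values in a local field of characteristic `0` and
  residue characteristic prime to `M`, at which `g` is not zero, comes after a finite extension from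
  an arc in a chart, and such that the cohomology at an arc depends only on the closed point, the
  multiplicities and the leading coefficients along the boundary. -/
structure Theory (Ω : Type) [Field Ω] [CharZero Ω] where
  H : (O : CommRingCat.{0}) → Over (Spec (Fr O)) → ℕ → FN (card O) Ω
  good : ∀ O, LF O → ∀ Y, SP Y → ∀ i, (H O Y i).Good
  iso : ∀ O, LF O → ∀ Y Y', SP Y → SP Y' → Nonempty (Y ≅ Y') → ∀ i, (H O Y i).Sim (H O Y' i)
  ext : ∀ O O', LF O → LF O' → ∀ φ κ, Ext φ κ → ∀ Y, SP Y → ∀ i, (H O Y i).Sim (H O' (bc Y κ) i)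
  equal : ∀ O, LF O → ∀ p : ℕ, p.Prime → CharP O p → ∀ Y, SP Y → ∀ i : ℕ, (H O Y i).WM i
  model : ∀ A : CommRingCat.{0}, IsDomain A → CharZero A → Algebra.FiniteType ℤ A →
    ∀ X : Over (Spec A), SP X → ∃ (g : A) (M J : ℕ) (c : Fin J → Chart A M), g ≠ 0 ∧ 0 < M ∧
      (∀ O, LF O → CharZero O → IsUnit (M : O) → ∀ s : A ⟶ Fr O, NonVan s g →
        ∃ (j : Fin J) (O' : CommRingCat.{0}) (φ : O ⟶ O') (κ : Fr O ⟶ Fr O'),
          LF O' ∧ Ext φ κ ∧ FromArc (c j) (s ≫ κ)) ∧
      ∀ (j : Fin J) (O O' : CommRingCat.{0}), LF O → LF O' → ∀ (s : A ⟶ Fr O) (s' : A ⟶ Fr O'),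
        FromTwins (c j) s s' → ∀ i, (H O (bc X s) i).Sim (H O' (bc X s') i)

/-! ### Semistable models -/

/-- Strictly semistable: every point has an open neighbourhood which is étale over
`O[t_1, ..., t_n] / (∏ i ∈ I, t_i - ϖ)`, where `ϖ` is a prime element of the ring of integers `O`
and `I` is a set of indices. -/
def Semistable {O : CommRingCat.{0}} (Y : Over (Spec O)) : Prop :=
  ∃ ϖ : O, Irreducible ϖ ∧ ∀ x : Y.left, ∃ U : Y.left.Opens, x ∈ U ∧
    ∃ (n : ℕ) (I : Finset (Fin n)) (u : (U : Scheme.{0}) ⟶ (stdSch ϖ n I).left),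
      Etale u ∧ U.ι ≫ Y.hom = u ≫ (stdSch ϖ n I).hom

/-- The two models become isomorphic over a ring `Q` which is the quotient of both rings of integers
by the square of the maximal ideal. -/
def Congr {O O' : CommRingCat.{0}} (Y : Over (Spec O)) (Y' : Over (Spec O')) : Prop :=
  ∃ (Q : CommRingCat.{0}) (ρ : O ⟶ Q) (ρ' : O' ⟶ Q), IsQuo ρ.hom (mx O ^ 2) ∧
    IsQuo ρ'.hom (mx O' ^ 2) ∧ Nonempty (bc Y ρ ≅ bc Y' ρ')

/-- The cohomology of the generic fibre of a strictly semistable model depends only on the model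
modulo the square of the maximal ideal (a known fact for the `p`-adic cohomology: Hyodo and Kato). -/
def HyodoKato {Ω : Type} [Field Ω] [CharZero Ω] (T : Theory Ω) : Prop :=
  ∀ O O', LF O → LF O' → ∀ (Y : Over (Spec O)) (Y' : Over (Spec O')), FP Y → FP Y' →
    Semistable Y → Congr Y Y' → Sm (bc Y (inc O)) ∧ Sm (bc Y' (inc O')) ∧
      ∀ i, (T.H O (bc Y (inc O)) i).Sim (T.H O' (bc Y' (inc O')) i)

/-- The point `s` of `S` with values in the local field extends to a point with values in the ring of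
integers whose fibre is strictly semistable. -/
def SemistableAt {X S : Scheme.{0}} (f : X ⟶ S) {O : CommRingCat.{0}} (s : Spec (Fr O) ⟶ S) : Prop :=
  ∃ r : Spec O ⟶ S, Spec.map (inc O) ≫ r = s ∧ Semistable (fib f r)

/-- The ring of power series. -/
def Ser (k : CommRingCat.{0}) : CommRingCat.{0} := CommRingCat.of (PowerSeries k)

/-- There are a finite field `k` of characteristic `p` and a smooth fibre of `f` over the field of
Laurent series over `k` with the cohomology of the fibre at `s`, up to powers of the Frobenius maps and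
a multiple of the monodromy operator. -/
def Twinned {Ω : Type} [Field Ω] [CharZero Ω] (T : Theory Ω) {X S : Scheme.{0}} (f : X ⟶ S) (p : ℕ)
    {O : CommRingCat.{0}} (s : Spec (Fr O) ⟶ S) : Prop :=
  ∃ (k : CommRingCat.{0}) (s' : Spec (Fr (Ser k)) ⟶ S), IsField k ∧ Finite k ∧ CharP k p ∧
    Sm (fib f s') ∧ ∀ i, (T.H O (fib f s) i).Sim (T.H (Ser k) (fib f s') i)

end Pool.AKS

end
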